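import Pool.Agent.H330.Ramsey

set_option autoImplicit false

/-! Subdivisions of the infinite complete graph: induced paths and Ramsey's theorem. -/

namespace Pool.Agent.N627.WS

open SimpleGraph

section chain

variable {V : Type} {G : SimpleGraph V}

/-- a walk from `u` to `w` in `S` with `n` steps, as a function -/
def Ch (G : SimpleGraph V) (S : Set V) (u w : V) (n : ℕ) (p : ℕ → V) : Prop :=
  p 0 = u ∧ p n = w ∧ (∀ a, a ≤ n → p a ∈ S) ∧ ∀ a, a < n → G.Adj (p a) (p (a + 1))

/-- shortest walks are induced paths -/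
theorem exists_induced {S : Set V} {u w : V} (h : ∃ n p, Ch G S u w n p) :
    ∃ n p, Ch G S u w n p ∧ (∀ a b, a ≤ n → b ≤ n → p a = p b → a = b) ∧
      ∀ a b, a ≤ n → b ≤ n → (G.Adj (p a) (p b) ↔ a + 1 = b ∨ b + 1 = a) := by
  classical
  let n := Nat.find h
  obtain ⟨p, hp⟩ : ∃ p, Ch G S u w n p := Nat.find_spec h
  have hmin : ∀ m, m < n → ¬ ∃ p, Ch G S u w m p := fun m hm => Nat.find_min h hm
  obtain ⟨h0, h1, h2, h3⟩ := hp
  have cut : ∀ a b, a < b → b ≤ n → p a ≠ p b := by
    intro a b hab hb e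
    refine hmin (n - (b - a)) (by omega) ⟨fun x => if x ≤ a then p x else p (x + (b - a)), ?_, ?_, ?_, ?_⟩
    · simp [h0]
    · by_cases h : n - (b - a) ≤ a
      · have e1 : n - (b - a) = a := by omega
        have e2 : b = n := by omega
        simp only [e1, le_refl, if_true]
        rw [e, e2]
        exact h1
      · simp only [h, if_false]
        rw [show n - (b - a) + (b - a) = n by omega]
        exact h1
    · intro x hx
      by_cases h : x ≤ a
      · simp only [h, if_true]
        exact h2 _ (by omega)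
      · simp only [h, if_false]
        exact h2 _ (by omega)
    · intro x hx
      by_cases h : x + 1 ≤ a
      · have h' : x ≤ a := by omega
        simp only [h, h', if_true]
        exact h3 _ (by omega)
      · by_cases h' : x ≤ a
        · have e1 : x = a := by omega
          subst e1
          simp only [le_refl, if_true, h, if_false]
          rw [e, show x + 1 + (b - x) = b + 1 by omega]
          exact h3 _ (by omega)
        · simp only [h, h', if_false]
          rw [show x + 1 + (b - a) = x + (b - a) + 1 by omega]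
          exact h3 _ (by omega)
  have cut2 : ∀ a b, a + 1 < b → b ≤ n → ¬ G.Adj (p a) (p b) := by
    intro a b hab hb e
    refine hmin (n - (b - a - 1)) (by omega)
      ⟨fun x => if x ≤ a then p x else p (x + (b - a - 1)), ?_, ?_, ?_, ?_⟩
    · simp [h0]
    · have h : ¬ n - (b - a - 1) ≤ a := by omega
      simp only [h, if_false]
      rw [show n - (b - a - 1) + (b - a - 1) = n by omega]
      exact h1
    · intro x hx
      by_cases h : x ≤ a
      · simp only [h, if_true]
        exact h2 _ (by omega)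
      · simp only [h, if_false]
        exact h2 _ (by omega)
    · intro x hx
      by_cases h : x + 1 ≤ a
      · have h' : x ≤ a := by omega
        simp only [h, h', if_true]
        exact h3 _ (by omega)
      · by_cases h' : x ≤ a
        · have e1 : x = a := by omega
          subst e1
          simp only [le_refl, if_true, h, if_false]
          rw [show x + 1 + (b - x - 1) = b by omega]
          exact e
        · simp only [h, h', if_false]
          rw [show x + 1 + (b - a - 1) = x + (b - a - 1) + 1 by omega]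
          exact h3 _ (by omega)
  refine ⟨n, p, ⟨h0, h1, h2, h3⟩, ?_, ?_⟩
  · intro a b ha hb e
    rcases lt_trichotomy a b with h | h | h
    · exact absurd e (cut a b h hb)
    · exact h
    · exact absurd e.symm (cut b a h ha)
  · intro a b ha hb
    constructor
    · intro e
      rcases lt_trichotomy a b with h | h | h
      · by_contra hc
        exact cut2 a b (by omega) hb e
      · subst h
        exact absurd e G.irrefl
      · by_contra hc
        exact cut2 b a (by omega) ha e.symm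
    · rintro (rfl | rfl)
      · exact h3 a (by omega)
      · exact (h3 b (by omega)).symm

theorem ch_of_walk {u w : V} (W : G.Walk u w) : Ch G {x | x ∈ W.support} u w W.length W.getVert :=
  ⟨W.getVert_zero, W.getVert_length, fun _ _ => W.getVert_mem_support _,
    fun _ h => W.adj_getVert_succ h⟩

end chain

/-- subdivisions of the infinite complete graph with induced paths -/
structure TK (G : SimpleGraph ℕ) where
  v : ℕ → ℕ
  n : ℕ → ℕ → ℕ
  p : ℕ → ℕ → ℕ → ℕ
  vinj : Function.Injective v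
  npos : ∀ i j, i < j → 1 ≤ n i j
  p0 : ∀ i j, i < j → p i j 0 = v i
  pn : ∀ i j, i < j → p i j (n i j) = v j
  padj : ∀ i j, i < j → ∀ a b, a ≤ n i j → b ≤ n i j →
    (G.Adj (p i j a) (p i j b) ↔ a + 1 = b ∨ b + 1 = a)
  pinj : ∀ i j, i < j → ∀ a b, a ≤ n i j → b ≤ n i j → p i j a = p i j b → a = b
  pv : ∀ i j k, i < j → ∀ a, 0 < a → a < n i j → p i j a ≠ v k
  pp : ∀ i j i' j', i < j → i' < j' → (i, j) ≠ (i', j') → ∀ a b, 0 < a → a < n i j →
    0 < b → b < n i' j' → p i j a ≠ p i' j' b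

theorem tk_of {G : SimpleGraph ℕ} (hG : ∃ v : ℕ → ℕ, Function.Injective v ∧
    ∃ P : ∀ i j, G.Walk (v i) (v j), (∀ i j, i < j → (P i j).IsPath) ∧
    (∀ i j k, i < j → v k ∈ (P i j).support → k = i ∨ k = j) ∧
    (∀ i j i' j', i < j → i' < j' → (i, j) ≠ (i', j') → ∀ x, x ∈ (P i j).support →
      x ∈ (P i' j').support → ∃ k, x = v k)) : Nonempty (TK G) := by
  obtain ⟨v, hv, P, -, h2, h3⟩ := hG
  have key : ∀ i j, ∃ n p, Ch G {x | x ∈ (P i j).support} (v i) (v j) n p ∧
      (∀ a b, a ≤ n → b ≤ n → p a = p b → a = b) ∧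
      ∀ a b, a ≤ n → b ≤ n → (G.Adj (p a) (p b) ↔ a + 1 = b ∨ b + 1 = a) :=
    fun i j => exists_induced ⟨_, _, ch_of_walk (P i j)⟩
  choose n p hc hi ha using key
  have pv : ∀ i j k, i < j → ∀ a, 0 < a → a < n i j → p i j a ≠ v k := by
    intro i j k hij a ha ha' e
    have h4 : v k ∈ (P i j).support := by
      rw [← e]
      exact (hc i j).2.2.1 a ha'.le
    rcases h2 i j k hij h4 with rfl | rfl
    · have := hi k j a 0 ha'.le (Nat.zero_le _) (e.trans (hc k j).1.symm)
      omega
    · have := hi i k a _ ha'.le le_rfl (e.trans (hc i k).2.1.symm)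
      omega
  refine ⟨⟨v, n, p, hv, ?_, fun i j _ => (hc i j).1, fun i j _ => (hc i j).2.1,
    fun i j _ => ha i j, fun i j _ => hi i j, pv, ?_⟩⟩
  · intro i j hij
    by_contra h
    have h0 : n i j = 0 := by omega
    have h4 : v i = v j := by
      rw [← (hc i j).1, ← (hc i j).2.1, h0]
    exact hij.ne (hv h4)
  · intro i j i' j' hij hij' hne a b ha ha' hb hb' e
    obtain ⟨k, hk⟩ := h3 i j i' j' hij hij' hne (p i j a) ((hc i j).2.2.1 a ha'.le) (by
      rw [e]
      exact (hc i' j').2.2.1 b hb'.le)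
    exact pv i j k hij a ha ha' hk

namespace TK

variable {G : SimpleGraph ℕ}

/-- restriction to a set of branch vertices -/
def comp (D : TK G) (φ : ℕ → ℕ) (hφ : StrictMono φ) : TK G where
  v i := D.v (φ i)
  n i j := D.n (φ i) (φ j)
  p i j := D.p (φ i) (φ j)
  vinj := D.vinj.comp hφ.injective
  npos i j h := D.npos _ _ (hφ h)
  p0 i j h := D.p0 _ _ (hφ h)
  pn i j h := D.pn _ _ (hφ h)
  padj i j h := D.padj _ _ (hφ h)
  pinj i j h := D.pinj _ _ (hφ h)
  pv i j k h := D.pv _ _ _ (hφ h)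
  pp i j i' j' h h' hne := D.pp _ _ _ _ (hφ h) (hφ h') (by
    intro e
    have e1 := Prod.mk.inj e
    exact hne (Prod.ext (hφ.injective e1.1) (hφ.injective e1.2)))

/-- branch vertices and vertices of the paths -/
def W (D : TK G) (i j a : ℕ) : ℕ := if i = j then D.v i else D.p i j (a + 1)

theorem W_comp (D : TK G) (φ : ℕ → ℕ) (hφ : StrictMono φ) (i j a : ℕ) :
    (D.comp φ hφ).W i j a = D.W (φ i) (φ j) a := by
  unfold W
  by_cases h : i = j
  · rw [if_pos h, if_pos (congrArg φ h)]
    rfl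
  · rw [if_neg h, if_neg fun e => h (hφ.injective e)]
    rfl

/-- homogeneous subdivisions -/
structure Hom (D : TK G) (M : ℕ) : Prop where
  adj : ∀ σ τ : Fin 4 → ℕ, StrictMono σ → StrictMono τ → ∀ (x y z w : Fin 4) (a b : ℕ),
    a < M → b < M → (G.Adj (D.W (σ x) (σ y) a) (D.W (σ z) (σ w) b) ↔
      G.Adj (D.W (τ x) (τ y) a) (D.W (τ z) (τ w) b))
  len : ∀ i j i' j', i < j → i' < j' → min (D.n i j) M = min (D.n i' j') M

theorem exists_strictMono_pair {i j : ℕ} (h : i < j) : ∃ σ : Fin 4 → ℕ, StrictMono σ ∧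
    σ 0 = i ∧ σ 1 = j := by
  refine ⟨![i, j, j + 1, j + 2], ?_, rfl, rfl⟩
  rw [Fin.strictMono_iff_lt_succ]
  intro k
  fin_cases k
  · exact h
  · exact Nat.lt_succ_self j
  · exact Nat.lt_succ_self (j + 1)

/-- Ramsey's theorem for increasing maps -/
theorem ramsey4 {C : Type} [Finite C] [Nonempty C] (c : (Fin 4 → ℕ) → C) :
    ∃ φ : ℕ → ℕ, StrictMono φ ∧ ∀ σ τ : Fin 4 → ℕ, StrictMono σ → StrictMono τ →
      c (φ ∘ σ) = c (φ ∘ τ) := by
  classical
  obtain ⟨H, c0, hH, h⟩ := Pool.Agent.H330.infinite_ramsey (A := ℕ) (C := C) 4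
    (fun s => if h : s.card = 4 then c (s.orderEmbOfFin h) else Classical.arbitrary C)
  have hinf : (Set.ofPred (· ∈ H)).Infinite := hH
  refine ⟨Nat.nth (· ∈ H), Nat.nth_strictMono hinf, fun σ τ hσ hτ => ?_⟩
  have key : ∀ σ : Fin 4 → ℕ, StrictMono σ → c (Nat.nth (· ∈ H) ∘ σ) = c0 := by
    intro σ hσ
    have hm : StrictMono (Nat.nth (· ∈ H) ∘ σ) := (Nat.nth_strictMono hinf).comp hσ
    have hc : (Finset.univ.image (Nat.nth (· ∈ H) ∘ σ)).card = 4 := by
      rw [Finset.card_image_of_injective _ hm.injective]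
      rfl
    have h1 := h (Finset.univ.image (Nat.nth (· ∈ H) ∘ σ)) hc (by
      intro x hx
      rw [Finset.mem_coe, Finset.mem_image] at hx
      obtain ⟨y, -, rfl⟩ := hx
      exact Nat.nth_mem_of_infinite hinf _)
    rw [dif_pos hc] at h1
    have h2 : (Nat.nth (· ∈ H) ∘ σ) = (Finset.univ.image (Nat.nth (· ∈ H) ∘ σ)).orderEmbOfFin hc :=
      Finset.orderEmbOfFin_unique hc (fun x => Finset.mem_image_of_mem _ (Finset.mem_univ _)) hm
    rw [h2]
    exact h1
  rw [key σ hσ, key τ hτ]

theorem exists_hom (D : TK G) (M : ℕ) : ∃ D' : TK G, D'.Hom M := by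
  classical
  let c : (Fin 4 → ℕ) → (Fin 4 × Fin 4 × Fin 4 × Fin 4 × Fin M × Fin M → Bool) × Fin (M + 1) :=
    fun σ => (fun q => decide (G.Adj (D.W (σ q.1) (σ q.2.1) q.2.2.2.2.1)
      (D.W (σ q.2.2.1) (σ q.2.2.2.1) q.2.2.2.2.2)), ⟨min (D.n (σ 0) (σ 1)) M, by omega⟩)
  obtain ⟨φ, hφ, h⟩ := ramsey4 c
  refine ⟨D.comp φ hφ, ⟨fun σ τ hσ hτ x y z w a b ha hb => ?_, fun i j i' j' h1 h2 => ?_⟩⟩
  · rw [W_comp, W_comp, W_comp, W_comp]
    have h1 := congrArg Prod.fst (h σ τ hσ hτ)
    have h2 := congrFun h1 (x, y, z, w, ⟨a, ha⟩, ⟨b, hb⟩)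
    exact decide_eq_decide.1 h2
  · obtain ⟨σ, hσ, rfl, rfl⟩ := exists_strictMono_pair h1
    obtain ⟨τ, hτ, rfl, rfl⟩ := exists_strictMono_pair h2
    have h3 := congrArg Prod.snd (h σ τ hσ hτ)
    exact congrArg Fin.val h3

end TK

end Pool.Agent.N627.WS
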