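import Pool.Agent.N627.WS.Sys
import Pool.Agent.W889.SD.Comb

set_option autoImplicit false

/-! Forbidden induced subgraphs in subdivisions of the infinite complete graph. -/

namespace Pool.Agent.N627.WS

open SimpleGraph
open Pool.Agent.W889.SD (spiders par_unique par_exists Big)

section acyc

variable {V : Type} {H : SimpleGraph V}

/-- An acyclic graph with at most one vertex of degree three in each component is an induced subgraph
of a disjoint union of subdivided stars. -/
theorem embedI [Countable V] (hG : H.IsAcyclic)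
    (hB : ∀ u v, H.Reachable u v → Big H.Adj u → Big H.Adj v → u = v) :
    ∃ f : V → ℕ × Option (ℕ × ℕ), Function.Injective f ∧
      (∀ u v, H.Adj u v ↔ spiders.Adj (f u) (f v)) ∧
      ∀ v l d, (f v).2 = some (l, d) → ∃ c, H.Reachable c v ∧ H.dist c v = d + 1 := by
  classical
  obtain ⟨g, hg⟩ := exists_injective_nat V
  have hcc : ∀ C : H.ConnectedComponent, ∃ c, H.connectedComponentMk c = C ∧
      ∀ u, H.connectedComponentMk u = C → Big H.Adj u → u = c := by
    intro C
    by_cases h : ∃ u, H.connectedComponentMk u = C ∧ Big H.Adj u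
    · obtain ⟨c, h1, h2⟩ := h
      exact ⟨c, h1, fun u h3 h4 => hB u c (ConnectedComponent.exact (h3.trans h1.symm)) h4 h2⟩
    · obtain ⟨c, hc⟩ := C.exists_rep
      exact ⟨c, hc, fun u h3 h4 => absurd ⟨u, h3, h4⟩ h⟩
  choose cc hc1 hc2 using hcc
  let c : V → V := fun v => cc (H.connectedComponentMk v)
  have hcr : ∀ v, H.Reachable (c v) v := fun v => ConnectedComponent.exact (hc1 _)
  have hca : ∀ u v, H.Reachable u v → c u = c v := fun u v h => by
    show cc _ = cc _
    rw [ConnectedComponent.sound h]
  let d : V → ℕ := fun v => H.dist (c v) v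
  have hpar : ∀ v, ∃ u, d v ≠ 0 → H.Adj u v ∧ H.dist (c v) v = H.dist (c v) u + 1 := by
    intro v
    by_cases h : d v = 0
    · exact ⟨v, fun h' => absurd h h'⟩
    · obtain ⟨u, hu⟩ := par_exists (hcr v) h
      exact ⟨u, fun _ => hu⟩
  choose par hp using hpar
  have hpc : ∀ v, d v ≠ 0 → c (par v) = c v := fun v h => hca _ _ (hp v h).1.reachable
  have hpd : ∀ v, d v ≠ 0 → d v = d (par v) + 1 := by
    intro v h
    show H.dist (c v) v = H.dist (c (par v)) (par v) + 1
    rw [hpc v h]
    exact (hp v h).2
  have hpu : ∀ u v, H.Adj u v → d v = d u + 1 → u = par v := by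
    intro u v h h1
    have h0 : d v ≠ 0 := by omega
    refine par_unique hG h (hp v h0).1 (hcr v) ?_ (hp v h0).2
    have : c u = c v := hca _ _ h.reachable
    have h2 : H.dist (c v) v = H.dist (c u) u + 1 := h1
    rw [this] at h2
    exact h2
  have hd0 : ∀ v, d v = 0 → v = c v := by
    intro v h
    exact ((hcr v).dist_eq_zero_iff.1 h).symm
  let leg : V → V := fun v => par^[d v - 1] v
  have hleg : ∀ v, d v ≠ 0 → d (par v) ≠ 0 → leg (par v) = leg v := by
    intro v h h'
    have h1 := hpd v h
    show par^[d (par v) - 1] (par v) = par^[d v - 1] v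
    have : d v - 1 = (d (par v) - 1) + 1 := by omega
    rw [this]
    rfl
  have key : ∀ n u v, d u = n + 1 → d v = n + 1 → c u = c v → leg u = leg v → u = v := by
    intro n
    induction n with
    | zero =>
      intro u v h1 h2 _ h3
      have e1 : leg u = u := by
        show par^[d u - 1] u = u
        rw [h1]
        rfl
      have e2 : leg v = v := by
        show par^[d v - 1] v = v
        rw [h2]
        rfl
      rw [← e1, ← e2, h3]
    | succ n ih =>
      intro u v h1 h2 h3 h4
      have k1 : d u ≠ 0 := by omega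
      have k2 : d v ≠ 0 := by omega
      have l1 := hpd u k1
      have l2 := hpd v k2
      have m1 : d (par u) ≠ 0 := by omega
      have m2 : d (par v) ≠ 0 := by omega
      have h5 : par u = par v := ih (par u) (par v) (by omega) (by omega)
        (by rw [hpc u k1, hpc v k2, h3]) (by rw [hleg u k1 m1, hleg v k2 m2, h4])
      by_contra hne
      have hbig : Big H.Adj (par u) := by
        refine ⟨u, v, par (par u), hne, ?_, ?_, (hp u k1).1, ?_, (hp (par u) m1).1.symm⟩
        · intro e
          have := hpd (par u) m1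
          rw [← e] at this
          omega
        · intro e
          have := hpd (par u) m1
          rw [← e] at this
          omega
        · rw [h5]
          exact (hp v k2).1
      have h6 : par u = c (par u) := hc2 _ _ rfl hbig
      apply m1
      show H.dist (c (par u)) (par u) = 0
      rw [← h6]
      exact dist_self
  let f : V → ℕ × Option (ℕ × ℕ) := fun v =>
    (g (c v), if d v = 0 then none else some (g (leg v), d v - 1))
  have f0 : ∀ v, d v = 0 → f v = (g (c v), none) := fun v h => by
    show (g (c v), if d v = 0 then none else some (g (leg v), d v - 1)) = _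
    rw [if_pos h]
  have f1 : ∀ v, d v ≠ 0 → f v = (g (c v), some (g (leg v), d v - 1)) := fun v h => by
    show (g (c v), if d v = 0 then none else some (g (leg v), d v - 1)) = _
    rw [if_neg h]
  refine ⟨f, ?_, fun u v => ⟨?_, ?_⟩, ?_⟩
  · intro u v huv
    by_cases h1 : d u = 0 <;> by_cases h2 : d v = 0
    · rw [f0 u h1, f0 v h2] at huv
      rw [hd0 u h1, hd0 v h2]
      exact hg (Prod.mk.inj huv).1
    · rw [f0 u h1, f1 v h2] at huv
      exact absurd (Prod.mk.inj huv).2 (by simp)
    · rw [f1 u h1, f0 v h2] at huv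
      exact absurd (Prod.mk.inj huv).2 (by simp)
    · rw [f1 u h1, f1 v h2] at huv
      have h3 := Prod.mk.inj huv
      have h4 := Prod.mk.inj (Option.some.inj h3.2)
      exact key (d u - 1) u v (by omega) (by omega) (hg h3.1) (hg h4.1)
  · have half : ∀ u v, H.Adj u v → d v = d u + 1 → spiders.Adj (f u) (f v) := by
      intro u v h h1
      have h2 : d v ≠ 0 := by omega
      have h3 : c u = c v := hca _ _ h.reachable
      have h4 := hpu u v h h1
      unfold spiders
      rw [SimpleGraph.fromRel_adj]
      rw [f1 v h2]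
      by_cases h5 : d u = 0
      · rw [f0 u h5]
        refine ⟨by simp, Or.inl ⟨by rw [h3], Or.inl ⟨rfl, g (leg v), ?_⟩⟩⟩
        have : d v - 1 = 0 := by omega
        rw [this]
      · rw [f1 u h5]
        refine ⟨?_, Or.inl ⟨by rw [h3], Or.inr ⟨g (leg v), d u - 1, ?_, ?_⟩⟩⟩
        · intro e
          have := Prod.mk.inj (Option.some.inj (Prod.mk.inj e).2)
          omega
        · rw [h4, hleg v h2 (by rw [← h4]; exact h5)]
        · have : d v - 1 = d u - 1 + 1 := by omega
          rw [this]
    intro h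
    have h3 : c u = c v := hca _ _ h.reachable
    rcases hG.dist_eq_dist_add_one_of_adj_of_reachable (c u) h (hcr u) with h1 | h1
    · refine (half v u h.symm ?_).symm
      show H.dist (c u) u = H.dist (c v) v + 1
      rw [← h3]
      exact h1
    · refine half u v h ?_
      show H.dist (c v) v = H.dist (c u) u + 1
      rw [← h3]
      exact h1
  · have dir : ∀ u v, (f u).1 = (f v).1 → (((f u).2 = none ∧ ∃ l, (f v).2 = some (l, 0)) ∨
        ∃ l d, (f u).2 = some (l, d) ∧ (f v).2 = some (l, d + 1)) → H.Adj u v := by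
      intro u v h1 h2
      have hcc : c u = c v := by
        by_cases h3 : d u = 0 <;> by_cases h4 : d v = 0
        · rw [f0 u h3, f0 v h4] at h1
          exact hg h1
        · rw [f0 u h3, f1 v h4] at h1
          exact hg h1
        · rw [f1 u h3, f0 v h4] at h1
          exact hg h1
        · rw [f1 u h3, f1 v h4] at h1
          exact hg h1
      have hv0 : d v ≠ 0 := by
        intro h4
        rw [f0 v h4] at h2
        rcases h2 with ⟨-, l, h2⟩ | ⟨l, d, -, h2⟩
        · exact absurd h2 (by simp)
        · exact absurd h2 (by simp)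
      have hpar' : par v = u := by
        rcases h2 with ⟨h2, l, h3⟩ | ⟨l, d', h2, h3⟩
        · have hu0 : d u = 0 := by
            by_contra h4
            rw [f1 u h4] at h2
            exact absurd h2 (by simp)
          rw [f1 v hv0] at h3
          have h5 := (Prod.mk.inj (Option.some.inj h3)).2
          have h6 := hpd v hv0
          have h7 : d (par v) = 0 := by omega
          rw [hd0 _ h7, hpc v hv0, ← hcc]
          exact (hd0 u hu0).symm
        · have hu0 : d u ≠ 0 := by
            intro h4
            rw [f0 u h4] at h2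
            exact absurd h2 (by simp)
          rw [f1 u hu0] at h2
          rw [f1 v hv0] at h3
          obtain ⟨e1, e2⟩ := Prod.mk.inj (Option.some.inj h2)
          obtain ⟨e3, e4⟩ := Prod.mk.inj (Option.some.inj h3)
          have h6 := hpd v hv0
          have h7 : d (par v) ≠ 0 := by omega
          refine key d' (par v) u (by omega) (by omega) (by rw [hpc v hv0, hcc]) ?_
          rw [hleg v hv0 h7]
          exact hg (e3.trans e1.symm)
      rw [← hpar']
      exact (hp v hv0).1
    intro h
    unfold spiders at h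
    rw [SimpleGraph.fromRel_adj] at h
    rcases h.2 with h1 | h1
    · exact dir u v h1.1 h1.2
    · exact (dir v u h1.1 h1.2).symm
  · intro v l d' h
    by_cases h1 : d v = 0
    · rw [f0 v h1] at h
      exact absurd h (by simp)
    · rw [f1 v h1] at h
      have h2 := (Prod.mk.inj (Option.some.inj h)).2
      refine ⟨c v, hcr v, ?_⟩
      show d v = d' + 1
      omega

end acyc

/-- A graph on `ℕ` which contains a subdivision of the infinite complete graph but no large complete
graph and no large complete bipartite graph as induced subgraph contains all forests of subdivided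
stars with legs of bounded length. -/
theorem contains (G : SimpleGraph ℕ) (hG : Nonempty (TK G)) (s t : ℕ)
    (hs : IsEmpty ((⊤ : SimpleGraph (Fin s)) ↪g G))
    (ht : IsEmpty (completeBipartiteGraph (Fin t) (Fin t) ↪g G)) {V : Type} [Countable V]
    {H : SimpleGraph V} (hH : H.IsAcyclic)
    (hB : ∀ u v, H.Reachable u v → Big H.Adj u → Big H.Adj v → u = v)
    (L : ℕ) (hL : ∀ u v, H.Reachable u v → H.dist u v ≤ L) : Nonempty (H ↪g G) := by
  obtain ⟨Q, q0, q1, q2⟩ := system G hG s t hs ht L
  obtain ⟨f, hf, hf1, hf2⟩ := embedI hH hB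
  let F : V → ℕ := fun v => match (f v).2 with
    | none => Q (f v).1 0 0
    | some (l, d) => Q (f v).1 l (d + 1)
  have F0 : ∀ v, (f v).2 = none → F v = Q (f v).1 0 0 := by
    intro v h
    show (match (f v).2 with
      | none => Q (f v).1 0 0
      | some (l, d) => Q (f v).1 l (d + 1)) = _
    rw [h]
  have F1 : ∀ v l d, (f v).2 = some (l, d) → F v = Q (f v).1 l (d + 1) := by
    intro v l d h
    show (match (f v).2 with
      | none => Q (f v).1 0 0
      | some (l, d) => Q (f v).1 l (d + 1)) = _
    rw [h]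
  have dL : ∀ v l d, (f v).2 = some (l, d) → d + 1 ≤ L := by
    intro v l d h
    obtain ⟨c, h1, h2⟩ := hf2 v l d h
    rw [← h2]
    exact hL c v h1
  have sp : ∀ u v, spiders.Adj (f u) (f v) ↔ f u ≠ f v ∧
      (((f u).1 = (f v).1 ∧ (((f u).2 = none ∧ ∃ l, (f v).2 = some (l, 0)) ∨
        ∃ l d, (f u).2 = some (l, d) ∧ (f v).2 = some (l, d + 1))) ∨
      ((f v).1 = (f u).1 ∧ (((f v).2 = none ∧ ∃ l, (f u).2 = some (l, 0)) ∨
        ∃ l d, (f v).2 = some (l, d) ∧ (f u).2 = some (l, d + 1)))) := by
    intro u v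
    unfold spiders
    rw [SimpleGraph.fromRel_adj]
  refine ⟨⟨⟨F, ?_⟩, ?_⟩⟩
  · intro u v h
    apply hf
    rcases hu : (f u).2 with _ | ⟨l, d⟩ <;> rcases hv : (f v).2 with _ | ⟨l', d'⟩
    · rw [F0 u hu, F0 v hv] at h
      exact Prod.ext (q1 _ _ _ _ _ _ (Nat.zero_le _) (Nat.zero_le _) h).1 (hu.trans hv.symm)
    · rw [F0 u hu, F1 v _ _ hv] at h
      have := (q1 _ _ _ _ _ _ (Nat.zero_le _) (dL v _ _ hv) h).2.1
      omega
    · rw [F1 u _ _ hu, F0 v hv] at h
      have := (q1 _ _ _ _ _ _ (dL u _ _ hu) (Nat.zero_le _) h).2.1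
      omega
    · rw [F1 u _ _ hu, F1 v _ _ hv] at h
      obtain ⟨h1, h2, h3⟩ := q1 _ _ _ _ _ _ (dL u _ _ hu) (dL v _ _ hv) h
      have h4 : d = d' := by omega
      have h5 : l = l' := by
        rcases h3 with h3 | h3
        · omega
        · exact h3
      rw [← h4, ← h5] at hv
      exact Prod.ext h1 (hu.trans hv.symm)
  · intro u v
    show G.Adj (F u) (F v) ↔ H.Adj u v
    rw [hf1, sp]
    rcases hu : (f u).2 with _ | ⟨l, d⟩ <;> rcases hv : (f v).2 with _ | ⟨l', d'⟩
    · rw [F0 u hu, F0 v hv, q2 _ _ _ _ _ _ (Nat.zero_le _) (Nat.zero_le _)]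
      constructor
      · rintro ⟨-, h, -⟩
        omega
      · rintro ⟨-, ⟨-, ⟨-, l, h⟩ | ⟨l, d, h, -⟩⟩ | ⟨-, ⟨-, l, h⟩ | ⟨l, d, h, -⟩⟩⟩ <;>
          exact absurd h (by simp)
    · rw [F0 u hu, F1 v _ _ hv, q2 _ _ _ _ _ _ (Nat.zero_le _) (dL v _ _ hv)]
      constructor
      · rintro ⟨h1, h2, -⟩
        have h3 : d' = 0 := by omega
        subst h3
        refine ⟨fun e => ?_, Or.inl ⟨h1, Or.inl ⟨rfl, l', rfl⟩⟩⟩
        rw [e, hv] at hu
        exact absurd hu (by simp)
      · rintro ⟨-, ⟨h1, ⟨-, l, h⟩ | ⟨l, d, h, -⟩⟩ | ⟨-, ⟨h, -⟩ | ⟨l, d, -, h⟩⟩⟩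
        · have h2 := (Prod.mk.inj (Option.some.inj h)).2
          exact ⟨h1, Or.inl (by omega), Or.inr (Or.inl rfl)⟩
        · exact absurd h (by simp)
        · exact absurd h (by simp)
        · exact absurd h (by simp)
    · rw [F1 u _ _ hu, F0 v hv, q2 _ _ _ _ _ _ (dL u _ _ hu) (Nat.zero_le _)]
      constructor
      · rintro ⟨h1, h2, -⟩
        have h3 : d = 0 := by omega
        subst h3
        refine ⟨fun e => ?_, Or.inr ⟨h1.symm, Or.inl ⟨rfl, l, rfl⟩⟩⟩
        rw [e, hv] at hu
        exact absurd hu (by simp)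
      · rintro ⟨-, ⟨-, ⟨h, -⟩ | ⟨l, d, -, h⟩⟩ | ⟨h1, ⟨-, l, h⟩ | ⟨l, d, h, -⟩⟩⟩
        · exact absurd h (by simp)
        · exact absurd h (by simp)
        · have h2 := (Prod.mk.inj (Option.some.inj h)).2
          exact ⟨h1.symm, Or.inr (by omega), Or.inr (Or.inr rfl)⟩
        · exact absurd h (by simp)
    · rw [F1 u _ _ hu, F1 v _ _ hv, q2 _ _ _ _ _ _ (dL u _ _ hu) (dL v _ _ hv)]
      constructor
      · rintro ⟨h1, h2, h3⟩
        have h4 : l = l' := by
          rcases h3 with h3 | h3 | h3
          · exact h3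
          · omega
          · omega
        subst h4
        refine ⟨fun e => ?_, ?_⟩
        · rw [e, hv] at hu
          have := (Prod.mk.inj (Option.some.inj hu)).2
          omega
        · rcases h2 with h2 | h2
          · refine Or.inl ⟨h1, Or.inr ⟨l, d, rfl, ?_⟩⟩
            rw [show d + 1 = d' by omega]
          · refine Or.inr ⟨h1.symm, Or.inr ⟨l, d', rfl, ?_⟩⟩
            rw [show d' + 1 = d by omega]
      · rintro ⟨-, ⟨h1, ⟨h, -⟩ | ⟨m, e, h, h'⟩⟩ | ⟨h1, ⟨h, -⟩ | ⟨m, e, h, h'⟩⟩⟩
        · exact absurd h (by simp)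
        · have k1 := Prod.mk.inj (Option.some.inj h)
          have k2 := Prod.mk.inj (Option.some.inj h')
          exact ⟨h1, Or.inl (by omega), Or.inl (k1.1.trans k2.1.symm)⟩
        · exact absurd h (by simp)
        · have k1 := Prod.mk.inj (Option.some.inj h)
          have k2 := Prod.mk.inj (Option.some.inj h')
          exact ⟨h1.symm, Or.inr (by omega), Or.inl (k2.1.trans k1.1.symm)⟩

end Pool.Agent.N627.WS
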