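import Pool.Agent.N627.WS.TK
import Pool.Agent.Helper507.SK.Ram

set_option autoImplicit false

/-! Homogeneous subdivisions in graphs without large complete bipartite subgraphs. -/

namespace Pool.Agent.N627.WS

open SimpleGraph

namespace TK

variable {G : SimpleGraph ℕ}

theorem W_inj (D : TK G) {i j i' j' a : ℕ} (hij : i ≤ j) (hij' : i' ≤ j')
    (hv : i < j ∨ i' < j' → ∀ x y, x < y → a + 1 < D.n x y) (h : D.W i j a = D.W i' j' a) :
    i = i' ∧ j = j' := by
  unfold W at h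
  rcases hij.eq_or_lt with e | e <;> rcases hij'.eq_or_lt with e' | e'
  · rw [if_pos e, if_pos e'] at h
    have := D.vinj h
    omega
  · rw [if_pos e, if_neg e'.ne] at h
    exact absurd h.symm (D.pv _ _ _ e' _ (Nat.succ_pos a) (hv (Or.inr e') _ _ e'))
  · rw [if_neg e.ne, if_pos e'] at h
    exact absurd h (D.pv _ _ _ e _ (Nat.succ_pos a) (hv (Or.inl e) _ _ e))
  · rw [if_neg e.ne, if_neg e'.ne] at h
    by_contra hne
    refine D.pp i j i' j' e e' (fun h' => hne (Prod.mk.inj h')) _ _ (Nat.succ_pos a)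
      (hv (Or.inl e) _ _ e) (Nat.succ_pos a) (hv (Or.inl e) _ _ e') h

/-- An edge between two paths (or branch vertices) neither of which is contained in the other gives
large complete bipartite subgraphs. -/
theorem biclique (D : TK G) {M : ℕ} (hD : D.Hom M) {i j k l a b : ℕ} (hij : i ≤ j) (hkl : k ≤ l)
    (ha : a < M) (hb : b < M) (hva : i < j → ∀ x y, x < y → a + 1 < D.n x y)
    (hvb : k < l → ∀ x y, x < y → b + 1 < D.n x y)
    (h1 : ¬ ((i = k ∨ i = l) ∧ (j = k ∨ j = l))) (h2 : ¬ ((k = i ∨ k = j) ∧ (l = i ∨ l = j)))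
    (hadj : G.Adj (D.W i j a) (D.W k l b)) (T : ℕ) :
    ∃ f g : Fin T → ℕ, Function.Injective f ∧ Function.Injective g ∧
      ∀ s t, G.Adj (f s) (g t) := by
  classical
  obtain ⟨S, hS, hS4⟩ := Infinite.exists_superset_card_eq ({i, j, k, l} : Finset ℕ) 4
    Finset.card_le_four
  have hmem : ∀ x ∈ ({i, j, k, l} : Finset ℕ), ∃ e : Fin 4, S.orderEmbOfFin hS4 e = x := by
    intro x hx
    have h3 : x ∈ Set.range (S.orderEmbOfFin hS4) := by
      rw [Finset.range_orderEmbOfFin]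
      exact hS hx
    exact h3
  obtain ⟨σ, hσ, hσS⟩ : ∃ σ : Fin 4 → ℕ, StrictMono σ ∧
      ∀ x ∈ ({i, j, k, l} : Finset ℕ), ∃ e : Fin 4, σ e = x :=
    ⟨_, (S.orderEmbOfFin hS4).strictMono, hmem⟩
  obtain ⟨e1, rfl⟩ := hσS i (by simp)
  obtain ⟨e2, rfl⟩ := hσS j (by simp)
  obtain ⟨e3, rfl⟩ := hσS k (by simp)
  obtain ⟨e4, rfl⟩ := hσS l (by simp)
  have inj : ∀ x y : Fin 4, σ x = σ y ↔ x = y := fun x y => hσ.injective.eq_iff
  simp only [inj] at h1 h2
  have hij' : e1 ≤ e2 := hσ.le_iff_le.1 hij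
  have hkl' : e3 ≤ e4 := hσ.le_iff_le.1 hkl
  obtain ⟨x, hx12, hx3, hx4⟩ : ∃ x, (x = e1 ∨ x = e2) ∧ x ≠ e3 ∧ x ≠ e4 := by
    by_cases h : e1 = e3 ∨ e1 = e4
    · refine ⟨e2, Or.inr rfl, ?_, ?_⟩
      · exact fun h' => h1 ⟨h, Or.inl h'⟩
      · exact fun h' => h1 ⟨h, Or.inr h'⟩
    · exact ⟨e1, Or.inl rfl, fun h' => h (Or.inl h'), fun h' => h (Or.inr h')⟩
  obtain ⟨y, hy34, hy1, hy2⟩ : ∃ y, (y = e3 ∨ y = e4) ∧ y ≠ e1 ∧ y ≠ e2 := by
    by_cases h : e3 = e1 ∨ e3 = e2
    · refine ⟨e4, Or.inr rfl, ?_, ?_⟩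
      · exact fun h' => h2 ⟨h, Or.inl h'⟩
      · exact fun h' => h2 ⟨h, Or.inr h'⟩
    · exact ⟨e3, Or.inl rfl, fun h' => h (Or.inl h'), fun h' => h (Or.inr h')⟩
  let τ : ℕ → ℕ → Fin 4 → ℕ := fun s t z =>
    (T + 1) * z.val + (if z = x then s else if z = y then t else 0)
  have hτ : ∀ s t, s < T → t < T → StrictMono (τ s t) := by
    intro s t hs ht z w hzw
    have h3 : z.val + 1 ≤ w.val := hzw
    have h4 : (T + 1) * (z.val + 1) ≤ (T + 1) * w.val := Nat.mul_le_mul_left _ h3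
    have h5 : (if z = x then s else if z = y then t else 0) ≤ T := by
      split
      · omega
      · split <;> omega
    show (T + 1) * z.val + _ < (T + 1) * w.val + _
    rw [Nat.mul_add, Nat.mul_one] at h4
    omega
  have t1 : ∀ s t t' z, z ≠ y → τ s t z = τ s t' z := by
    intro s t t' z hz
    show (T + 1) * z.val + _ = (T + 1) * z.val + _
    rw [if_neg hz, if_neg hz]
  have t2 : ∀ s s' t z, z ≠ x → τ s t z = τ s' t z := by
    intro s s' t z hz
    show (T + 1) * z.val + _ = (T + 1) * z.val + _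
    rw [if_neg hz, if_neg hz]
  have hyx : y ≠ x := by
    rintro rfl
    rcases hx12 with h | h
    · exact hy1 h
    · exact hy2 h
  have t3 : ∀ s s' t, τ s t x = τ s' t x → s = s' := by
    intro s s' t h
    have h' : (T + 1) * x.val + (if x = x then s else _) = (T + 1) * x.val + (if x = x then s' else _) := h
    rw [if_pos rfl, if_pos rfl] at h'
    omega
  have t4 : ∀ s t t', τ s t y = τ s t' y → t = t' := by
    intro s t t' h
    have h' : (T + 1) * y.val + (if y = x then s else if y = y then t else 0) =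
        (T + 1) * y.val + (if y = x then s else if y = y then t' else 0) := h
    rw [if_neg hyx, if_neg hyx, if_pos rfl, if_pos rfl] at h'
    omega
  refine ⟨fun s => D.W (τ s 0 e1) (τ s 0 e2) a, fun t => D.W (τ 0 t e3) (τ 0 t e4) b, ?_, ?_, ?_⟩
  · intro s s' h
    have hT : 0 < T := s.pos
    have h3 := D.W_inj ((hτ s 0 s.isLt hT).monotone hij') ((hτ s' 0 s'.isLt hT).monotone hij')
      (fun h4 => hva (by
        rcases h4 with h4 | h4
        · exact hσ ((hτ s 0 s.isLt hT).lt_iff_lt.1 h4)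
        · exact hσ ((hτ s' 0 s'.isLt hT).lt_iff_lt.1 h4))) h
    refine Fin.ext (t3 s s' 0 ?_)
    rcases hx12 with rfl | rfl
    · exact h3.1
    · exact h3.2
  · intro t t' h
    have hT : 0 < T := t.pos
    have h3 := D.W_inj ((hτ 0 t hT t.isLt).monotone hkl') ((hτ 0 t' hT t'.isLt).monotone hkl')
      (fun h4 => hvb (by
        rcases h4 with h4 | h4
        · exact hσ ((hτ 0 t hT t.isLt).lt_iff_lt.1 h4)
        · exact hσ ((hτ 0 t' hT t'.isLt).lt_iff_lt.1 h4))) h
    refine Fin.ext (t4 0 t t' ?_)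
    rcases hy34 with rfl | rfl
    · exact h3.1
    · exact h3.2
  · intro s t
    show G.Adj (D.W (τ s 0 e1) (τ s 0 e2) a) (D.W (τ 0 t e3) (τ 0 t e4) b)
    rw [t1 s 0 t e1 hy1.symm, t1 s 0 t e2 hy2.symm, t2 0 s t e3 hx3.symm, t2 0 s t e4 hx4.symm]
    exact (hD.adj σ (τ s t) hσ (hτ s t s.isLt t.isLt) e1 e2 e3 e4 a b ha hb).1 hadj

end TK

/-- Ramsey's theorem for complete bipartite subgraphs. -/
theorem no_biclique (G : SimpleGraph ℕ) (s t : ℕ)
    (hs : IsEmpty ((⊤ : SimpleGraph (Fin s)) ↪g G))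
    (ht : IsEmpty (completeBipartiteGraph (Fin t) (Fin t) ↪g G)) : ∃ T : ℕ,
    ¬ ∃ f g : Fin T → ℕ, Function.Injective f ∧ Function.Injective g ∧
      ∀ s t, G.Adj (f s) (g t) := by
  classical
  obtain ⟨N, hN⟩ := Pool.Agent.Helper507.SK.ramsey s t
  have hcl : ∀ Q : Finset ℕ, Q.card = s → ¬ ∀ x ∈ Q, ∀ y ∈ Q, x ≠ y → G.Adj x y := by
    intro Q hQ h
    refine hs.false ⟨⟨fun i => Q.orderEmbOfFin hQ i, (Q.orderEmbOfFin hQ).injective⟩, ?_⟩
    intro i j
    constructor
    · intro h1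
      rw [top_adj]
      rintro rfl
      exact G.irrefl h1
    · intro h1
      rw [top_adj] at h1
      exact h _ (Finset.orderEmbOfFin_mem Q hQ i) _ (Finset.orderEmbOfFin_mem Q hQ j)
        fun e => h1 ((Q.orderEmbOfFin hQ).injective e)
  refine ⟨N, ?_⟩
  rintro ⟨f, g, hf, hg, h⟩
  have key : ∀ f : Fin N → ℕ, Function.Injective f → ∃ Q : Finset ℕ, Q.card = t ∧
      (∀ x ∈ Q, ∃ i, f i = x) ∧ ∀ x ∈ Q, ∀ y ∈ Q, ¬ G.Adj x y := by
    intro f hf
    rcases hN ℕ G.Adj (fun _ _ h => h.symm) (Finset.univ.image f) (by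
      rw [Finset.card_image_of_injective _ hf, Finset.card_univ, Fintype.card_fin]) with
      ⟨Q, -, h2, h3⟩ | ⟨Q, h1, h2, h3⟩
    · exact absurd h3 (hcl Q h2)
    · refine ⟨Q, h2, fun x hx => ?_, fun x hx y hy h4 => h3 x hx y hy (G.ne_of_adj h4) h4⟩
      obtain ⟨i, -, hi⟩ := Finset.mem_image.1 (h1 hx)
      exact ⟨i, hi⟩
  obtain ⟨A, hA, hA1, hA2⟩ := key f hf
  obtain ⟨B, hB, hB1, hB2⟩ := key g hg
  have hAB : ∀ x ∈ A, ∀ y ∈ B, G.Adj x y := by
    intro x hx y hy
    obtain ⟨i, rfl⟩ := hA1 x hx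
    obtain ⟨j, rfl⟩ := hB1 y hy
    exact h i j
  refine ht.false ⟨⟨Sum.elim (fun i => A.orderEmbOfFin hA i) (fun i => B.orderEmbOfFin hB i), ?_⟩, ?_⟩
  · rintro (i | i) (j | j) e
    · exact congrArg Sum.inl ((A.orderEmbOfFin hA).injective e)
    · exfalso
      have h1 := hAB _ (Finset.orderEmbOfFin_mem A hA i) _ (Finset.orderEmbOfFin_mem B hB j)
      exact G.ne_of_adj h1 e
    · exfalso
      have h1 := hAB _ (Finset.orderEmbOfFin_mem A hA j) _ (Finset.orderEmbOfFin_mem B hB i)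
      exact G.ne_of_adj h1 e.symm
    · exact congrArg Sum.inr ((B.orderEmbOfFin hB).injective e)
  · intro i j
    rcases i with i | i <;> rcases j with j | j
    · constructor
      · exact fun h1 => absurd h1 (hA2 _ (Finset.orderEmbOfFin_mem A hA i) _
          (Finset.orderEmbOfFin_mem A hA j))
      · intro h1
        simp at h1
    · constructor
      · intro _
        simp
      · exact fun _ => hAB _ (Finset.orderEmbOfFin_mem A hA i) _ (Finset.orderEmbOfFin_mem B hB j)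
    · constructor
      · intro _
        simp
      · exact fun _ => (hAB _ (Finset.orderEmbOfFin_mem A hA j) _
          (Finset.orderEmbOfFin_mem B hB i)).symm
    · constructor
      · exact fun h1 => absurd h1 (hB2 _ (Finset.orderEmbOfFin_mem B hB i) _
          (Finset.orderEmbOfFin_mem B hB j))
      · intro h1
        simp at h1

end Pool.Agent.N627.WS
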