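import Pool.Agent.N627.WS.Inc

set_option autoImplicit false

/-! Induced disjoint unions of subdivided stars in subdivisions of the infinite complete graph. -/

namespace Pool.Agent.N627.WS

open SimpleGraph

/-- the branch vertices of the legs -/
def idx (n l : ℕ) : ℕ → ℕ
  | 0 => 2 * n
  | d + 1 => 2 * Nat.pair (Nat.pair n l) d + 1

theorem idx_lt (n l d : ℕ) : idx n l d < idx n l (d + 1) := by
  cases d with
  | zero =>
    show 2 * n < 2 * Nat.pair (Nat.pair n l) 0 + 1
    have h1 := Nat.left_le_pair n l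
    have h2 := Nat.left_le_pair (Nat.pair n l) 0
    omega
  | succ d =>
    show 2 * Nat.pair (Nat.pair n l) d + 1 < 2 * Nat.pair (Nat.pair n l) (d + 1) + 1
    have h1 : Nat.pair (Nat.pair n l) d < Nat.pair (Nat.pair n l) (d + 1) :=
      Nat.pair_lt_pair_right (Nat.pair n l) (Nat.lt_succ_self d)
    omega

theorem idx_inj {n l d n' l' d' : ℕ} (h : idx n l d = idx n' l' d') :
    n = n' ∧ d = d' ∧ (d = 0 ∨ l = l') := by
  cases d with
  | zero =>
    cases d' with
    | zero =>
      have h0 : 2 * n = 2 * n' := h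
      exact ⟨by omega, rfl, Or.inl rfl⟩
    | succ d' =>
      have h0 : 2 * n = 2 * Nat.pair (Nat.pair n' l') d' + 1 := h
      omega
  | succ d =>
    cases d' with
    | zero =>
      have h0 : 2 * Nat.pair (Nat.pair n l) d + 1 = 2 * n' := h
      omega
    | succ d' =>
      have h0 : 2 * Nat.pair (Nat.pair n l) d + 1 = 2 * Nat.pair (Nat.pair n' l') d' + 1 := h
      have h1 : Nat.pair (Nat.pair n l) d = Nat.pair (Nat.pair n' l') d' := by omega
      obtain ⟨h2, h3⟩ := Nat.pair_eq_pair.1 h1
      obtain ⟨h4, h5⟩ := Nat.pair_eq_pair.1 h2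
      exact ⟨h4, by rw [h3], Or.inr h5⟩

theorem idx_lt' (n l : ℕ) {d d' : ℕ} (h : d < d') : idx n l d < idx n l d' :=
  strictMono_nat_of_lt_succ (idx_lt n l) h

namespace TK

variable {G : SimpleGraph ℕ}

theorem W_inj' (D : TK G) {i j i' j' a a' : ℕ} (hij : i ≤ j) (hij' : i' ≤ j')
    (hv : i < j → ∀ x y, x < y → a + 1 < D.n x y)
    (hv' : i' < j' → ∀ x y, x < y → a' + 1 < D.n x y) (h : D.W i j a = D.W i' j' a') :
    i = i' ∧ j = j' ∧ (i < j → a = a') := by
  unfold W at h
  rcases hij.eq_or_lt with e | e <;> rcases hij'.eq_or_lt with e' | e'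
  · rw [if_pos e, if_pos e'] at h
    have := D.vinj h
    refine ⟨by omega, by omega, fun h => by omega⟩
  · rw [if_pos e, if_neg e'.ne] at h
    exact absurd h.symm (D.pv _ _ _ e' _ (Nat.succ_pos a') (hv' e' _ _ e'))
  · rw [if_neg e.ne, if_pos e'] at h
    exact absurd h (D.pv _ _ _ e _ (Nat.succ_pos a) (hv e _ _ e))
  · rw [if_neg e.ne, if_neg e'.ne] at h
    have h1 := hv e _ _ e
    have h2 := hv' e' _ _ e'
    by_cases hne : (i, j) = (i', j')
    · obtain ⟨rfl, rfl⟩ := Prod.mk.inj hne
      refine ⟨rfl, rfl, fun _ => ?_⟩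
      have := D.pinj i j e _ _ h1.le h2.le h
      omega
    · exact absurd h (D.pp i j i' j' e e' hne _ _ (Nat.succ_pos a) h1 (Nat.succ_pos a') h2)

end TK

/-- Induced subgraphs in subdivisions of the infinite complete graph: stars with infinitely many
legs of length `L`. -/
theorem system (G : SimpleGraph ℕ) (hG : Nonempty (TK G)) (s t : ℕ)
    (hs : IsEmpty ((⊤ : SimpleGraph (Fin s)) ↪g G))
    (ht : IsEmpty (completeBipartiteGraph (Fin t) (Fin t) ↪g G)) (L : ℕ) :
    ∃ Q : ℕ → ℕ → ℕ → ℕ, (∀ i l l', Q i l 0 = Q i l' 0) ∧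
      (∀ i l t i' l' t', t ≤ L → t' ≤ L → Q i l t = Q i' l' t' →
        i = i' ∧ t = t' ∧ (t = 0 ∨ l = l')) ∧
      (∀ i l t i' l' t', t ≤ L → t' ≤ L → (G.Adj (Q i l t) (Q i' l' t') ↔
        i = i' ∧ (t + 1 = t' ∨ t' + 1 = t) ∧ (l = l' ∨ t = 0 ∨ t' = 0))) := by
  obtain ⟨D0⟩ := hG
  obtain ⟨D, hD⟩ := D0.exists_hom (L + 1)
  obtain ⟨T, hT⟩ := no_biclique G s t hs ht
  have hbc : ∀ {i j k l a b : ℕ}, i ≤ j → k ≤ l → a < L + 1 → b < L + 1 →
      (i < j → ∀ x y, x < y → a + 1 < D.n x y) → (k < l → ∀ x y, x < y → b + 1 < D.n x y) →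
      ¬ ((i = k ∨ i = l) ∧ (j = k ∨ j = l)) → ¬ ((k = i ∨ k = j) ∧ (l = i ∨ l = j)) →
      ¬ G.Adj (D.W i j a) (D.W k l b) :=
    fun h1 h2 h3 h4 h5 h6 h7 h8 h9 => hT (D.biclique hD h1 h2 h3 h4 h5 h6 h7 h8 h9 T)
  -- the common length
  obtain ⟨n0, hn2, hnM, hn, hnL⟩ : ∃ n0, 2 ≤ n0 ∧ n0 ≤ L + 1 + 1 ∧ (∀ x y, x < y → n0 ≤ D.n x y) ∧
      (n0 ≤ L → ∀ x y, x < y → D.n x y = n0) := by
    have h01 : (0 : ℕ) < 1 := Nat.zero_lt_one
    have hl : ∀ x y, x < y → min (D.n x y) (L + 1) = min (D.n 0 1) (L + 1) :=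
      fun x y h => hD.len x y 0 1 h h01
    have hne1 : D.n 0 1 ≠ 1 := by
      intro h1
      have h2 := D.padj 0 1 h01 0 1 (Nat.zero_le _) h1.ge
      rw [D.p0 0 1 h01] at h2
      have h3 := D.pn 0 1 h01
      rw [h1] at h3
      rw [h3] at h2
      have h4 : G.Adj (D.W 0 0 0) (D.W 1 1 0) := by
        unfold TK.W
        rw [if_pos rfl, if_pos rfl]
        exact h2.2 (Or.inl rfl)
      exact hbc le_rfl le_rfl (Nat.succ_pos L) (Nat.succ_pos L) (fun h => absurd h (lt_irrefl _))
        (fun h => absurd h (lt_irrefl _)) (by simp) (by simp) h4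
    have h1 := D.npos 0 1 h01
    by_cases hL : L = 0
    · subst hL
      -- all lengths are at least two
      refine ⟨2, le_rfl, le_rfl, fun x y hxy => ?_, fun h => absurd h (by omega)⟩
      have h1' := D.npos x y hxy
      by_contra hcon
      have h2' : D.n x y = 1 := by omega
      have h2 := D.padj x y hxy 0 1 (Nat.zero_le _) h2'.ge
      rw [D.p0 x y hxy] at h2
      have h3 := D.pn x y hxy
      rw [h2'] at h3
      rw [h3] at h2
      have h4 : G.Adj (D.W x x 0) (D.W y y 0) := by
        unfold TK.W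
        rw [if_pos rfl, if_pos rfl]
        exact h2.2 (Or.inl rfl)
      exact hbc le_rfl le_rfl (Nat.succ_pos _) (Nat.succ_pos _) (fun h => absurd h (lt_irrefl _))
        (fun h => absurd h (lt_irrefl _)) (by simp [hxy.ne]) (by simp [hxy.ne']) h4
    by_cases h : L + 1 ≤ D.n 0 1
    · refine ⟨L + 1, by omega, by omega, fun x y hxy => ?_, fun h => absurd h (by omega)⟩
      have := hl x y hxy
      rw [min_eq_right h] at this
      exact min_eq_right_iff.1 this
    · refine ⟨D.n 0 1, by omega, by omega, fun x y hxy => ?_, fun _ x y hxy => ?_⟩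
      · have := hl x y hxy
        omega
      · have := hl x y hxy
        omega
  -- the vertices
  let lo : ℕ → ℕ → ℕ → ℕ := fun i l t => idx i l (t / n0)
  let hi : ℕ → ℕ → ℕ → ℕ := fun i l t => if t % n0 = 0 then idx i l (t / n0) else idx i l (t / n0 + 1)
  let Q : ℕ → ℕ → ℕ → ℕ := fun i l t => D.p (idx i l (t / n0)) (idx i l (t / n0 + 1)) (t % n0)
  have n0p : 0 < n0 := by omega
  have hmod : ∀ t, t % n0 < n0 := fun t => Nat.mod_lt t n0p
  have hlohi : ∀ i l t, lo i l t ≤ hi i l t := by
    intro i l t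
    show idx i l (t / n0) ≤ if t % n0 = 0 then idx i l (t / n0) else idx i l (t / n0 + 1)
    split
    · exact le_rfl
    · exact (idx_lt i l _).le
  have hQ : ∀ i l t, Q i l t = D.W (lo i l t) (hi i l t) (t % n0 - 1) := by
    intro i l t
    by_cases h : t % n0 = 0
    · have e : hi i l t = lo i l t := if_pos h
      rw [e]
      show D.p (idx i l (t / n0)) (idx i l (t / n0 + 1)) (t % n0) = _
      unfold TK.W
      rw [if_pos rfl, h]
      exact D.p0 _ _ (idx_lt i l _)
    · have e : hi i l t = idx i l (t / n0 + 1) := if_neg h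
      rw [e]
      show D.p (idx i l (t / n0)) (idx i l (t / n0 + 1)) (t % n0) = _
      unfold TK.W
      rw [if_neg (idx_lt i l _).ne, Nat.sub_add_cancel (Nat.pos_of_ne_zero h)]
  have hmodL : ∀ t, t ≤ L → t % n0 - 1 < L + 1 := by
    intro t ht
    have := Nat.mod_le t n0
    omega
  have hval : ∀ i l t, lo i l t < hi i l t → ∀ x y, x < y → t % n0 - 1 + 1 < D.n x y := by
    intro i l t h x y hxy
    have h0 : t % n0 ≠ 0 := by
      intro h0
      have e : hi i l t = lo i l t := if_pos h0
      omega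
    have := hmod t
    have := hn x y hxy
    omega
  -- elements of the supports
  have hhi : ∀ i l t, hi i l t = idx i l (t / n0) ∧ t % n0 = 0 ∨
      hi i l t = idx i l (t / n0 + 1) ∧ t % n0 ≠ 0 := by
    intro i l t
    by_cases h : t % n0 = 0
    · exact Or.inl ⟨if_pos h, h⟩
    · exact Or.inr ⟨if_neg h, h⟩
  have nonadj : ∀ i l t i' l' t', t ≤ L → t' ≤ L →
      ¬ ((lo i l t = lo i' l' t' ∨ lo i l t = hi i' l' t') ∧
        (hi i l t = lo i' l' t' ∨ hi i l t = hi i' l' t')) →
      ¬ ((lo i' l' t' = lo i l t ∨ lo i' l' t' = hi i l t) ∧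
        (hi i' l' t' = lo i l t ∨ hi i' l' t' = hi i l t)) →
      ¬ G.Adj (Q i l t) (Q i' l' t') := by
    intro i l t i' l' t' ht ht' h1 h2
    rw [hQ, hQ]
    exact hbc (hlohi _ _ _) (hlohi _ _ _) (hmodL t ht) (hmodL t' ht') (hval i l t) (hval i' l' t')
      h1 h2
  -- different legs
  have diff : ∀ i l t i' l' t', t ≤ L → t' ≤ L → (i ≠ i' ∨ (l ≠ l' ∧ 0 < t ∧ 0 < t')) →
      ¬ G.Adj (Q i l t) (Q i' l' t') := by
    intro i l t i' l' t' ht ht' hne
    have key : ∀ i l t i' l' t', (i ≠ i' ∨ (l ≠ l' ∧ 0 < t ∧ 0 < t')) →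
        ¬ ((lo i l t = lo i' l' t' ∨ lo i l t = hi i' l' t') ∧
        (hi i l t = lo i' l' t' ∨ hi i l t = hi i' l' t')) := by
      intro i l t i' l' t' hne
      rcases hne with hne | ⟨hl, h0, -⟩
      · rintro ⟨h1 | h1, -⟩
        · exact hne (idx_inj h1).1
        · rcases hhi i' l' t' with ⟨h2, -⟩ | ⟨h2, -⟩ <;> rw [h2] at h1 <;> exact hne (idx_inj h1).1
      · by_cases hq : t / n0 = 0
        · have hr : t % n0 ≠ 0 := by
            intro hr
            have := Nat.div_add_mod t n0
            rw [hq, hr] at this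
            omega
          have e : hi i l t = idx i l (t / n0 + 1) := if_neg hr
          rintro ⟨-, h1 | h1⟩
          · rw [e] at h1
            rcases (idx_inj h1).2.2 with h3 | h3
            · omega
            · exact hl h3
          · rcases hhi i' l' t' with ⟨h2, -⟩ | ⟨h2, -⟩ <;> rw [e, h2] at h1 <;>
              rcases (idx_inj h1).2.2 with h3 | h3
            · omega
            · exact hl h3
            · omega
            · exact hl h3
        · rintro ⟨h1 | h1, -⟩
          · rcases (idx_inj h1).2.2 with h3 | h3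
            · exact hq h3
            · exact hl h3
          · rcases hhi i' l' t' with ⟨h2, -⟩ | ⟨h2, -⟩ <;> rw [h2] at h1 <;>
              rcases (idx_inj h1).2.2 with h3 | h3
            · exact hq h3
            · exact hl h3
            · exact hq h3
            · exact hl h3
    refine nonadj i l t i' l' t' ht ht' (key _ _ _ _ _ _ hne) (key _ _ _ _ _ _ ?_)
    rcases hne with h | ⟨h1, h2, h3⟩
    · exact Or.inl h.symm
    · exact Or.inr ⟨Ne.symm h1, h3, h2⟩
  -- the same leg
  have same : ∀ i l t t', t < t' → t' ≤ L → (G.Adj (Q i l t) (Q i l t') ↔ t + 1 = t') := by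
    intro i l t t' htt ht'
    have dt := Nat.div_add_mod t n0
    have dt' := Nat.div_add_mod t' n0
    have hqq : t / n0 ≤ t' / n0 := Nat.div_le_div_right htt.le
    rcases hqq.eq_or_lt with hq | hq
    · show G.Adj (D.p (idx i l (t / n0)) (idx i l (t / n0 + 1)) (t % n0))
        (D.p (idx i l (t' / n0)) (idx i l (t' / n0 + 1)) (t' % n0)) ↔ _
      rw [← hq] at dt' ⊢
      have hlt := idx_lt i l (t / n0)
      rw [D.padj _ _ hlt _ _ ((hmod t).le.trans (hn _ _ hlt)) ((hmod t').le.trans (hn _ _ hlt))]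
      omega
    · have hnn : n0 ≤ t' := by
        have : 1 ≤ t' / n0 := Nat.succ_le_of_lt (lt_of_le_of_lt (Nat.zero_le _) hq)
        calc n0 = n0 * 1 := (Nat.mul_one n0).symm
          _ ≤ n0 * (t' / n0) := Nat.mul_le_mul_left _ this
          _ ≤ t' := by omega
      have hex := hnL (hnn.trans ht')
      by_cases hc : t' / n0 = t / n0 + 1 ∧ t % n0 ≠ 0 ∧ t' % n0 = 0
      · obtain ⟨c1, c2, c3⟩ := hc
        have hlt := idx_lt i l (t / n0)
        have e1 : Q i l t' = D.p (idx i l (t / n0)) (idx i l (t / n0 + 1)) n0 := by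
          rw [hQ]
          have e2 : hi i l t' = lo i l t' := if_pos c3
          rw [e2]
          unfold TK.W
          rw [if_pos rfl]
          show D.v (idx i l (t' / n0)) = _
          rw [c1, ← D.pn _ _ hlt, hex _ _ hlt]
        rw [e1]
        show G.Adj (D.p (idx i l (t / n0)) (idx i l (t / n0 + 1)) (t % n0)) _ ↔ _
        rw [D.padj _ _ hlt _ _ ((hmod t).le.trans (hn _ _ hlt)) (hn _ _ hlt)]
        rw [c1, c3, Nat.mul_add, Nat.mul_one] at dt'
        have := hmod t
        omega
      · have hge : t + 1 ≠ t' := by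
          intro e
          have hm := hmod t
          have hm' := hmod t'
          have h1 : t' / n0 = t / n0 + 1 := by
            have h3 : t' / n0 * n0 ≤ t' := Nat.div_mul_le_self t' n0
            by_contra h2
            have h4 : t / n0 + 2 ≤ t' / n0 := by omega
            have h5 : n0 * (t / n0 + 2) ≤ n0 * (t' / n0) := Nat.mul_le_mul_left _ h4
            rw [Nat.mul_add] at h5
            omega
          rw [h1, Nat.mul_add, Nat.mul_one] at dt'
          refine hc ⟨h1, ?_, ?_⟩
          · omega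
          · omega
        have hna : ¬ G.Adj (Q i l t) (Q i l t') := by
          have b1 : ∀ d, t / n0 < d → lo i l t ≠ idx i l d := fun d hd => (idx_lt' i l hd).ne
          refine nonadj i l t i l t' (by omega) ht' ?_ ?_
          · rintro ⟨h1 | h1, -⟩
            · exact b1 _ hq h1
            · rcases hhi i l t' with ⟨h2, -⟩ | ⟨h2, -⟩ <;> rw [h2] at h1
              · exact b1 _ hq h1
              · exact b1 _ (by omega) h1
          · rintro ⟨h1, h2⟩
            have h1' : lo i l t' = hi i l t := by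
              rcases h1 with h1 | h1
              · exact absurd h1.symm (b1 _ hq)
              · exact h1
            have k1 : t' / n0 = t / n0 + 1 ∧ t % n0 ≠ 0 := by
              rcases hhi i l t with ⟨h3, h4⟩ | ⟨h3, h4⟩
              · rw [h3] at h1'
                have := (idx_inj h1').2.1
                omega
              · rw [h3] at h1'
                exact ⟨(idx_inj h1').2.1, h4⟩
            have k2 : t' % n0 = 0 := by
              by_contra h5
              have e : hi i l t' = idx i l (t' / n0 + 1) := if_neg h5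
              rw [e] at h2
              rcases h2 with h2 | h2
              · exact absurd h2.symm (b1 _ (by omega))
              · rcases hhi i l t with ⟨h3, h4⟩ | ⟨h3, h4⟩ <;> rw [h3] at h2
                · have := (idx_inj h2).2.1
                  omega
                · have := (idx_inj h2).2.1
                  omega
            exact hc ⟨k1.1, k1.2, k2⟩
        exact ⟨fun h => absurd h hna, fun h => absurd h hge⟩
  have q0 : ∀ i l l', Q i l 0 = Q i l' 0 := by
    intro i l l'
    rw [hQ, hQ]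
    have e1 : hi i l 0 = idx i l 0 := by
      show (if 0 % n0 = 0 then idx i l (0 / n0) else _) = _
      rw [if_pos (Nat.zero_mod n0), Nat.zero_div]
    have e2 : hi i l' 0 = idx i l' 0 := by
      show (if 0 % n0 = 0 then idx i l' (0 / n0) else _) = _
      rw [if_pos (Nat.zero_mod n0), Nat.zero_div]
    have e3 : lo i l 0 = idx i l 0 := by
      show idx i l (0 / n0) = _
      rw [Nat.zero_div]
    have e4 : lo i l' 0 = idx i l' 0 := by
      show idx i l' (0 / n0) = _
      rw [Nat.zero_div]
    rw [e1, e2, e3, e4]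
    rfl
  refine ⟨Q, q0, ?_, ?_⟩
  · intro i l t i' l' t' ht ht' h
    rw [hQ, hQ] at h
    obtain ⟨h1, h2, h3⟩ := D.W_inj' (hlohi _ _ _) (hlohi _ _ _) (hval i l t) (hval i' l' t') h
    obtain ⟨k1, k2, k3⟩ := idx_inj h1
    have dt := Nat.div_add_mod t n0
    have dt' := Nat.div_add_mod t' n0
    rcases hhi i l t with ⟨m1, m2⟩ | ⟨m1, m2⟩ <;> rcases hhi i' l' t' with ⟨m3, m4⟩ | ⟨m3, m4⟩
    · refine ⟨k1, ?_, ?_⟩
      · rw [← dt, ← dt', k2, m2, m4]
      · rcases k3 with k3 | k3
        · left
          rw [← dt, k3, m2]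
          omega
        · exact Or.inr k3
    · rw [m1, m3] at h2
      have := (idx_inj h2).2.1
      omega
    · rw [m1, m3] at h2
      have := (idx_inj h2).2.1
      omega
    · rw [m1, m3] at h2
      have h4 := (idx_inj h2).2.2
      have h5 : t % n0 - 1 = t' % n0 - 1 := h3 (by
        rw [m1]
        exact idx_lt i l _)
      refine ⟨k1, ?_, ?_⟩
      · rw [← dt, ← dt', k2]
        omega
      · rcases h4 with h4 | h4
        · omega
        · exact Or.inr h4
  · intro i l t i' l' t' ht ht'
    by_cases hne : i ≠ i' ∨ (l ≠ l' ∧ 0 < t ∧ 0 < t')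
    · refine ⟨fun h => absurd h (diff i l t i' l' t' ht ht' hne), ?_⟩
      rintro ⟨h1, h2, h3⟩
      exfalso
      rcases hne with hne | ⟨h4, h5, h6⟩
      · exact hne h1
      · rcases h3 with h3 | h3 | h3
        · exact h4 h3
        · omega
        · omega
    · push Not at hne
      obtain ⟨h1, h2⟩ := hne
      subst h1
      -- a common leg
      obtain ⟨l0, e1, e2⟩ : ∃ l0, Q i l t = Q i l0 t ∧ Q i l' t' = Q i l0 t' := by
        by_cases hl : l = l'
        · exact ⟨l, rfl, by rw [hl]⟩
        · rcases Nat.eq_zero_or_pos t with h0 | h0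
          · exact ⟨l', by rw [h0]; exact q0 i l l', rfl⟩
          · have := h2 hl h0
            have h0' : t' = 0 := by omega
            exact ⟨l, rfl, by rw [h0']; exact q0 i l' l⟩
      rw [e1, e2]
      have hl3 : l = l' ∨ t = 0 ∨ t' = 0 := by
        by_cases hl : l = l'
        · exact Or.inl hl
        · rcases Nat.eq_zero_or_pos t with h0 | h0
          · exact Or.inr (Or.inl h0)
          · have := h2 hl h0
            exact Or.inr (Or.inr (by omega))
      rcases lt_trichotomy t t' with h | h | h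
      · rw [same i l0 t t' h ht']
        exact ⟨fun h' => ⟨rfl, Or.inl h', hl3⟩, fun h' => by omega⟩
      · subst h
        refine ⟨fun h' => absurd h' G.irrefl, fun h' => by omega⟩
      · rw [G.adj_comm, same i l0 t' t h ht]
        exact ⟨fun h' => ⟨rfl, Or.inr h', hl3⟩, fun h' => by omega⟩

end Pool.Agent.N627.WS
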